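import Mathlib
import Pool.Agent.H17.BaumSweet

set_option autoImplicit false

namespace Pool.Agent.Results.MP_4e5b66_nt.NotRegular

theorem result (one : ℕ → Prop)
    (hone : ∀ m, one m ↔ ∀ i L : ℕ, m.testBit (i + L) = true →
      (∀ t < L, m.testBit (i + t) = false) → (i = 0 ∨ m.testBit (i - 1) = true) → Even L)
    (k : ℕ) (hk : 2 ≤ k) :
    ¬ (Submodule.span ℤ {v : ℕ → ℤ | ∃ e j, j < k ^ e ∧
      v = fun n => (Nat.nth (fun m => ¬ one m) (k ^ e * n + j) : ℤ)}).FG := by
  obtain rfl : one = Pool.Agent.H17.BS.one 2 :=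
    funext fun m => propext (by simp only [hone, even_iff_two_dvd]; rfl)
  exact Pool.Agent.H17.BS.final 2 le_rfl k hk

end Pool.Agent.Results.MP_4e5b66_nt.NotRegular
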